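import Mathlib
import Pool.Agent.K7.H58.IhFin

set_option autoImplicit false

/-!
# Ih's conjecture for Laurent polynomials over `ℚ^ab` whose content is not the unit ideal

Let `P` be a Laurent polynomial whose coefficients lie in a cyclotomic field `ℚ(μ_f)`. If the coefficients of `P` are
not all algebraic integers, then at every torsion point `ζ` at which `P(ζ)` is an algebraic integer two monomials of `P`
with non-integral coefficients have a quotient `ζ ^ (a - b)` which is a root of unity of order dividing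
`f ∏_{l ≤ N} l` (`N` the number of the non-integral coefficients); so these torsion points lie in finitely many proper
torsion cosets. If the coefficients are algebraic integers which lie in a proper ideal, then `P(ζ)` is never a unit. Hence
Ih's conjecture holds for all `P` over `ℚ^ab` whose coefficients do not generate the unit ideal, and it is reduced (over
`ℚ^ab`) to Laurent polynomials with algebraic integer coefficients which generate the unit ideal.

Proof: a version of Mann's argument in which 'the sum is zero' is replaced by 'the sum is an algebraic integer': in a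
minimal integral subsum all the roots of unity are in one class modulo `μ_{n/l}`, since `1, ζ_n, ..., ζ_n^(l-1)` (`l^2 | n`)
resp. `1, ζ_l, ..., ζ_l^(l-2)` (`l^2 ∤ n`) are a basis of `ℤ[ζ_n]` over `ℤ[ζ_{n/l}]`.
-/

namespace Pool.Agent.Results.MP_c1891a_nt.NonUnitContent

open Finset

/-- The value `P(x) = ∑ P_a x ^ a` of the Laurent polynomial with coefficients `P_a`. -/
noncomputable def value {d : ℕ} (P : (Fin d → ℤ) →₀ ℂ) (x : Fin d → ℂˣ) : ℂ :=
  P.sum fun a c => c * ((∏ i, x i ^ a i : ℂˣ) : ℂ)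

/-- `α` is an algebraic unit. -/
def AlgUnit (α : ℂ) : Prop := α ≠ 0 ∧ IsIntegral ℤ α ∧ IsIntegral ℤ α⁻¹

/-- The coefficients of `P` lie in the cyclotomic field `ℚ(μ_f)`. -/
def Cyclotomic {d : ℕ} (f : ℕ) (P : (Fin d → ℤ) →₀ ℂ) : Prop :=
  ∀ a, P a ∈ IntermediateField.adjoin ℚ {z : ℂ | z ^ f = 1}

/-- The coefficients of `P` are algebraic integers and they lie in no proper ideal of the ring of all algebraic
integers. -/
def UnitContent {d : ℕ} (P : (Fin d → ℤ) →₀ ℂ) : Prop :=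
  (∀ a, IsIntegral ℤ (P a)) ∧ ∀ I : Ideal (integralClosure ℤ ℂ), (∀ a, ∃ y ∈ I, (y : ℂ) = P a) → I = ⊤

lemma pow_mon {d : ℕ} {x : Fin d → ℂˣ} {N : ℕ} (h : x ^ N = 1) (a : Fin d → ℤ) :
    ((∏ i, x i ^ a i : ℂˣ) : ℂ) ^ N = 1 := by
  have h1 : (∏ i, x i ^ a i : ℂˣ) ^ N = 1 := by
    rw [← prod_pow]
    refine prod_eq_one fun i _ => ?_
    have h2 : x i ^ N = 1 := congrFun h i
    rw [← zpow_natCast, ← zpow_mul, mul_comm, zpow_mul, zpow_natCast, h2, one_zpow]
  rw [← Units.val_pow_eq_pow_val, h1, Units.val_one]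

lemma partA {d : ℕ} (P : (Fin d → ℤ) →₀ ℂ) {f : ℕ} (hf : 0 < f) (hP : Cyclotomic f P)
    (hbad : ∃ a, ¬ IsIntegral ℤ (P a)) (x : Fin d → ℂˣ) (hx : IsOfFinOrder x) (hint : IsIntegral ℤ (value P x)) :
    ∃ a b : Fin d → ℤ, a ≠ b ∧ ¬ IsIntegral ℤ (P a) ∧ ¬ IsIntegral ℤ (P b) ∧
      (∏ i, x i ^ (a i - b i)) ^ (f * primorial {a | ¬ IsIntegral ℤ (P a)}.ncard) = 1 := by
  classical
  obtain ⟨N, hN, hxN⟩ := isOfFinOrder_iff_pow_eq_one.1 hx
  obtain ⟨B, hB⟩ : ∃ B, B = P.support.filter (fun a => ¬ IsIntegral ℤ (P a)) := ⟨_, rfl⟩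
  have hsupp : ∀ a, ¬ IsIntegral ℤ (P a) → a ∈ P.support := by
    intro a ha
    rw [Finsupp.mem_support_iff]
    intro h0
    rw [h0] at ha
    exact ha isIntegral_zero
  have hBm : ∀ a, a ∈ B ↔ a ∈ P.support ∧ ¬ IsIntegral ℤ (P a) := fun a => by rw [hB, mem_filter]
  have hBc : {a | ¬ IsIntegral ℤ (P a)}.ncard = B.card := by
    rw [← Set.ncard_coe_finset]
    congr 1
    ext a
    rw [mem_coe, hBm]
    exact ⟨fun h => ⟨hsupp a h, h⟩, fun h => h.2⟩
  obtain ⟨a0, ha0⟩ := hbad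
  obtain ⟨a, ha, b, hb, hab, h⟩ := Pool.Agent.K7.H58.Ih.core hf hN P.support (fun a => P a)
    (fun a => ((∏ i, x i ^ a i : ℂˣ) : ℂ)) (fun a _ => hP a) (fun a _ => pow_mon hxN a) hint B hBm
    ⟨a0, (hBm a0).2 ⟨hsupp a0 ha0, ha0⟩⟩
  refine ⟨a, b, hab, ((hBm a).1 ha).2, ((hBm b).1 hb).2, ?_⟩
  rw [hBc]
  have h1 : (∏ i, x i ^ (a i - b i) : ℂˣ) = (∏ i, x i ^ a i) / (∏ i, x i ^ b i) := by
    rw [← prod_div_distrib]
    exact prod_congr rfl fun i _ => zpow_sub _ _ _
  rw [h1]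
  apply Units.ext
  push_cast
  push_cast at h
  exact h

lemma partB {d : ℕ} (P : (Fin d → ℤ) →₀ ℂ) (I : Ideal (integralClosure ℤ ℂ)) (hI : I ≠ ⊤)
    (hP : ∀ a, ∃ y ∈ I, (y : ℂ) = P a) (x : Fin d → ℂˣ) (hx : IsOfFinOrder x) : ¬ AlgUnit (value P x) := by
  rintro ⟨h0, -, h2⟩
  obtain ⟨N, hN, hxN⟩ := isOfFinOrder_iff_pow_eq_one.1 hx
  choose y hy1 hy2 using hP
  have hz : ∀ a : Fin d → ℤ, ((∏ i, x i ^ a i : ℂˣ) : ℂ) ∈ integralClosure ℤ ℂ :=
    fun a => Pool.Agent.K7.H58.Ih.isInt_of_pow hN (pow_mon hxN a)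
  obtain ⟨v, hv⟩ : ∃ v : integralClosure ℤ ℂ, v = ∑ a ∈ P.support, y a * ⟨_, hz a⟩ := ⟨_, rfl⟩
  have hvI : v ∈ I := by
    rw [hv]
    exact sum_mem fun a _ => I.mul_mem_right _ (hy1 a)
  have hvv : (v : ℂ) = value P x := by
    rw [hv]
    unfold value Finsupp.sum
    rw [AddSubmonoidClass.coe_finsetSum]
    refine sum_congr rfl fun a _ => ?_
    rw [← hy2 a]
    rfl
  obtain ⟨u, hu⟩ : ∃ u : integralClosure ℤ ℂ, (u : ℂ) = (value P x)⁻¹ := ⟨⟨_, h2⟩, rfl⟩
  have huv : u * v = 1 := by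
    apply Subtype.ext
    show (u : ℂ) * (v : ℂ) = 1
    rw [hu, hvv, inv_mul_cancel₀ h0]
  apply hI
  rw [Ideal.eq_top_iff_one, ← huv]
  exact I.mul_mem_left u hvI

/-- Let `P` be a Laurent polynomial in `d` variables with coefficients in the cyclotomic field `ℚ(μ_f)`.

* If the coefficients of `P` are not all algebraic integers, then for every torsion point `x` for which `P(x)` is an
  algebraic integer there are exponents `a ≠ b` of `P` with non-integral coefficients for which the order of `x ^ (a - b)`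
  divides `f ∏_{l ≤ N} l`, where `N` is the number of the non-integral coefficients.
* If the coefficients of `P` are not algebraic integers which generate the unit ideal, then there is `B` such that every
  torsion point `x` for which `P(x)` is an algebraic unit satisfies `x ^ a = 1` for some `a ≠ 0` with `|a| ≤ B`. -/
theorem result {d : ℕ} (P : (Fin d → ℤ) →₀ ℂ) (f : ℕ) (hf : 0 < f) (hP : Cyclotomic f P) :
    ((∃ a, ¬ IsIntegral ℤ (P a)) → ∀ x : Fin d → ℂˣ, IsOfFinOrder x → IsIntegral ℤ (value P x) →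
      ∃ a b : Fin d → ℤ, a ≠ b ∧ ¬ IsIntegral ℤ (P a) ∧ ¬ IsIntegral ℤ (P b) ∧
        (∏ i, x i ^ (a i - b i)) ^ (f * primorial {a | ¬ IsIntegral ℤ (P a)}.ncard) = 1) ∧
    (¬ UnitContent P → ∃ B : ℕ, ∀ x : Fin d → ℂˣ, IsOfFinOrder x → AlgUnit (value P x) →
      ∃ a : Fin d → ℤ, a ≠ 0 ∧ (∀ i, |a i| ≤ B) ∧ ∏ i, x i ^ a i = 1) := by
  classical
  refine ⟨fun hbad x hx hint => partA P hf hP hbad x hx hint, fun hu => ?_⟩
  by_cases hall : ∀ a, IsIntegral ℤ (P a)
  · -- all coefficients are integral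
    have h1 : ∃ I : Ideal (integralClosure ℤ ℂ), (∀ a, ∃ y ∈ I, (y : ℂ) = P a) ∧ I ≠ ⊤ := by
      by_contra hcon
      push Not at hcon
      exact hu ⟨hall, hcon⟩
    obtain ⟨I, hI1, hI2⟩ := h1
    exact ⟨0, fun x hx hxu => absurd hxu (partB P I hI2 hI1 x hx)⟩
  · push Not at hall
    obtain ⟨M, hM⟩ : ∃ M, M = f * primorial {a | ¬ IsIntegral ℤ (P a)}.ncard := ⟨_, rfl⟩
    have hM0 : 0 < M := by
      rw [hM]
      exact Nat.mul_pos hf (primorial_pos _)
    refine ⟨∑ a ∈ P.support, ∑ b ∈ P.support, ∑ i, (M * (a i - b i) : ℤ).natAbs, fun x hx hxu => ?_⟩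
    obtain ⟨a, b, hab, ha, hb, h⟩ := partA P hf hP hall x hx hxu.2.1
    rw [← hM] at h
    have hsupp : ∀ a, ¬ IsIntegral ℤ (P a) → a ∈ P.support := by
      intro a ha
      rw [Finsupp.mem_support_iff]
      intro h0
      rw [h0] at ha
      exact ha isIntegral_zero
    refine ⟨fun i => M * (a i - b i), ?_, ?_, ?_⟩
    · intro h0
      apply hab
      funext i
      have h1 : (M : ℤ) * (a i - b i) = 0 := congrFun h0 i
      have h2 : (M : ℤ) ≠ 0 := by exact_mod_cast hM0.ne'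
      have h3 := (mul_eq_zero.1 h1).resolve_left h2
      linarith
    · intro i
      have h1 : (M * (a i - b i) : ℤ).natAbs ≤ ∑ i, (M * (a i - b i) : ℤ).natAbs :=
        single_le_sum (f := fun i => (M * (a i - b i) : ℤ).natAbs) (fun _ _ => Nat.zero_le _) (mem_univ i)
      have h2 : ∑ i, (M * (a i - b i) : ℤ).natAbs ≤ ∑ b ∈ P.support, ∑ i, (M * (a i - b i) : ℤ).natAbs :=
        single_le_sum (f := fun b : Fin d → ℤ => ∑ i, (M * (a i - b i) : ℤ).natAbs) (fun _ _ => Nat.zero_le _)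
          (hsupp b hb)
      have h3 : ∑ b ∈ P.support, ∑ i, (M * (a i - b i) : ℤ).natAbs ≤
          ∑ a ∈ P.support, ∑ b ∈ P.support, ∑ i, (M * (a i - b i) : ℤ).natAbs :=
        single_le_sum (f := fun a : Fin d → ℤ => ∑ b ∈ P.support, ∑ i, (M * (a i - b i) : ℤ).natAbs)
          (fun _ _ => Nat.zero_le _) (hsupp a ha)
      rw [Int.abs_eq_natAbs]
      exact_mod_cast (h1.trans h2).trans h3
    · rw [← h, ← prod_pow]
      refine prod_congr rfl fun i _ => ?_
      rw [← zpow_natCast, ← zpow_mul, mul_comm]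

end Pool.Agent.Results.MP_c1891a_nt.NonUnitContent
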